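import Pool.Agent.Run7.h320.Few

/-!
# Linear hypergraphs of bounded rank with linearly many vertices of large degree

For every `r ≥ 2` and `0 < ε ≤ 1` there is `D₀` such that the following holds for all `D ≥ D₀`. Let `H`
be a linear hypergraph with edges of at most `r` vertices and with `|N[v]| ≤ D` for every vertex `v`.
If at most `ε D / (40 r²)` vertices have degree more than `(1 - ε) D`, then the list chromatic index
of `H` is at most `D`. With `D = n` this is the bound of the list Erdős-Faber-Lovász conjecture for
`n`-vertex hypergraphs with linearly many vertices of degree up to `n - 1`.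

Outline. Let `U` be the set of the vertices of large degree. At a vertex `u` of `U` all but one of the
`D` colours may have to be used. The edges that meet `U` are coloured first. For every `u` in `U` for
which slightly less than `D` colours are popular (in the lists of many edges at `u`) some edges at `u`
are coloured with unpopular colours, the vertices `u` being taken in the order of the number of
popular colours. Then the stars of the vertices of `U` are coloured one by one with Hall's theorem: all
popular colours are usable since every colour class and every vertex outside `U` meets few coloured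
edges. The remaining edges have lists of at least `(1 - ε/4) D` colours and degrees at most
`(1 - ε) D`, and are coloured by a nibble for list colourings.
-/

set_option autoImplicit false

namespace Pool.Agent.Results.MP_ec05cf_co.FewHighDegree

open Finset

/-- a linear hypergraph: every edge has at least two vertices, two distinct edges have at most one
common vertex -/
structure IsLinear {V : Type} [DecidableEq V] (H : Finset (Finset V)) : Prop where
  two_le : ∀ e ∈ H, 2 ≤ e.card
  inter : ∀ e ∈ H, ∀ f ∈ H, e ≠ f → (e ∩ f).card ≤ 1

/-- `N[v]`, the union of all edges that contain `v` -/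
def closedNbhd {V : Type} [DecidableEq V] (H : Finset (Finset V)) (v : V) : Finset V :=
  (H.filter (fun e => v ∈ e)).biUnion id

/-- the number of edges that contain `v` -/
def degree {V : Type} [DecidableEq V] (H : Finset (Finset V)) (v : V) : ℕ :=
  (H.filter (fun e => v ∈ e)).card

/-- for every assignment of lists of at least `k` colours to the edges there is a colouring in which
every edge gets a colour of its list and intersecting edges get different colours -/
def Choosable {V : Type} (H : Finset (Finset V)) (k : ℕ) : Prop :=
  ∀ (C : Type) (L : {e : Finset V // e ∈ H} → Finset C), (∀ e, k ≤ (L e).card) →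
    ∃ φ : {e : Finset V // e ∈ H} → C, (∀ e, φ e ∈ L e) ∧
      ∀ e f : {e : Finset V // e ∈ H}, e ≠ f → ¬ Disjoint e.1 f.1 → φ e ≠ φ f

/-- the list chromatic index -/
noncomputable def listChromaticIndex {V : Type} (H : Finset (Finset V)) : ℕ :=
  sInf {k | Choosable H k}

open Classical in
/-- For all `r ≥ 2` and `0 < ε ≤ 1` there is `D₀` such that for all `D ≥ D₀` every linear hypergraph with
edges of at most `r` vertices, with `|N[v]| ≤ D` for all vertices `v`, and with at most
`ε D / (40 r²)` vertices of degree more than `(1 - ε) D` has list chromatic index at most `D`. -/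
theorem result : ∀ (r : ℕ) (ε : ℝ), 2 ≤ r → 0 < ε → ε ≤ 1 → ∃ D₀ : ℕ, ∀ D : ℕ, D₀ ≤ D →
    ∀ (V : Type) [Fintype V] [DecidableEq V] (H : Finset (Finset V)), IsLinear H →
      (∀ e ∈ H, e.card ≤ r) → (∀ v, (closedNbhd H v).card ≤ D) →
      40 * (r : ℝ) ^ 2 * (univ.filter (fun v => (1 - ε) * D < (degree H v : ℝ))).card ≤ ε * D →
      Choosable H D ∧ listChromaticIndex H ≤ D := by
  intro r ε hr hε0 hε1
  obtain ⟨D₀, hD₀⟩ := Pool.Agent.Run7.h320.few r hr ε hε0 hε1
  refine ⟨D₀, ?_⟩
  intro D hD V _ _ H hH hrank hN hU
  have hch : Choosable H D := fun C L hL =>
    Pool.Agent.Run7.h320.transfer H D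
      (fun L' hL' => hD₀ D hD V H hH.inter hH.two_le hrank hN
        (univ.filter (fun v => (1 - ε) * D < (degree H v : ℝ))) (fun v hv => by
          rw [mem_filter, not_and, not_lt] at hv
          exact hv (mem_univ v)) hU ℕ L' hL') L hL
  exact ⟨hch, Nat.sInf_le hch⟩

end Pool.Agent.Results.MP_ec05cf_co.FewHighDegree
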