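import Pool.Agent.Run7.h320.Few

/-!
# The list Erdős-Faber-Lovász bound for hypergraphs with a small transversal

Let `H` be a linear hypergraph with edges of at most `r` vertices and with `|N[v]| ≤ D` for every vertex
`v` (for instance `D = n`, the number of vertices). If there is a set `U` of at most `D / (40 r²)`
vertices such that every vertex outside `U` is in at most `D / (2 r)` edges that avoid `U`, then the
list chromatic index of `H` is at most `D`. There is no condition that `D` is large, and the vertices
in `U` may have degree up to `D - 1`. The proof of the first part of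
`Pool.Agent.Results.MP_ec05cf_co.FewHighDegree` (the edges that meet `U`) is combined with a greedy
colouring of the other edges.
-/

set_option autoImplicit false

namespace Pool.Agent.Results.MP_ec05cf_co.SmallTransversal

open Finset

/-- a linear hypergraph: every edge has at least two vertices, two distinct edges have at most one
common vertex -/
structure IsLinear {V : Type} [DecidableEq V] (H : Finset (Finset V)) : Prop where
  two_le : ∀ e ∈ H, 2 ≤ e.card
  inter : ∀ e ∈ H, ∀ f ∈ H, e ≠ f → (e ∩ f).card ≤ 1

/-- `N[v]`, the union of all edges that contain `v` -/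
def closedNbhd {V : Type} [DecidableEq V] (H : Finset (Finset V)) (v : V) : Finset V :=
  (H.filter (fun e => v ∈ e)).biUnion id

/-- for every assignment of lists of at least `k` colours to the edges there is a colouring in which
every edge gets a colour of its list and intersecting edges get different colours -/
def Choosable {V : Type} (H : Finset (Finset V)) (k : ℕ) : Prop :=
  ∀ (C : Type) (L : {e : Finset V // e ∈ H} → Finset C), (∀ e, k ≤ (L e).card) →
    ∃ φ : {e : Finset V // e ∈ H} → C, (∀ e, φ e ∈ L e) ∧
      ∀ e f : {e : Finset V // e ∈ H}, e ≠ f → ¬ Disjoint e.1 f.1 → φ e ≠ φ f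

/-- the list chromatic index -/
noncomputable def listChromaticIndex {V : Type} (H : Finset (Finset V)) : ℕ :=
  sInf {k | Choosable H k}

/-- Let `H` be a linear hypergraph with edges of at most `r` vertices, `|N[v]| ≤ D` for all `v`, and let
`U` be a set of vertices with `40 r² |U| ≤ D` such that every vertex outside `U` is in at most
`D / (2 r)` edges that avoid `U`. Then the list chromatic index of `H` is at most `D`. -/
theorem result (V : Type) [Fintype V] [DecidableEq V] (H : Finset (Finset V)) (hH : IsLinear H)
    (r D : ℕ) (hr : 2 ≤ r) (hD : 1 ≤ D) (hrank : ∀ e ∈ H, e.card ≤ r)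
    (hN : ∀ v, (closedNbhd H v).card ≤ D) (U : Finset V) (hU : 40 * r ^ 2 * U.card ≤ D)
    (hW : ∀ v, v ∉ U → 2 * r * (H.filter (fun e => v ∈ e ∧ Disjoint e U)).card ≤ D) :
    Choosable H D ∧ listChromaticIndex H ≤ D := by
  have hch : Choosable H D := fun C L hL =>
    Pool.Agent.Run7.h320.transfer H D
      (fun L' hL' => Pool.Agent.Run7.h320.transv hH.inter hH.two_le hD hN hrank hL' hr (by
        calc 40 * (r * (r * U.card)) = 40 * r ^ 2 * U.card := by ring
          _ ≤ D := hU) (by
        intro v hv
        refine le_trans (le_of_eq ?_) (hW v hv)
        congr 2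
        ext e
        unfold Pool.Agent.Run7.h320.at'
        simp only [mem_filter, disjoint_iff_inter_eq_empty, not_nonempty_iff_eq_empty]
        tauto)) L hL
  exact ⟨hch, Nat.sInf_le hch⟩

end Pool.Agent.Results.MP_ec05cf_co.SmallTransversal
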