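import Pool.Agent.Run7.h320.Three

/-!
# A bound without asymptotics for the list chromatic index of linear hypergraphs

If every vertex `v` of a linear hypergraph is in a common edge with at most `D` other vertices, then
the list chromatic index is at most `⌊3D/2⌋`. In particular it is at most `⌊3(n-1)/2⌋` for every
linear hypergraph on `n` vertices, for every `n`.

Outline. The edges with at least three vertices are coloured greedily in the order of decreasing
size. If `s(v)` is the number of these edges at `v`, then `v` is in at most `D - 2 s(v)` edges with two
vertices. The vertices are split into two classes by a maximum cut of the graph of the edges with two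
vertices, the edges inside the classes are coloured greedily, and the theorem of Borodin, Kostochka
and Woodall colours the edges between the classes.
-/

set_option autoImplicit false

namespace Pool.Agent.Results.MP_ec05cf_co.ThreeHalves

open Finset

/-- a linear hypergraph: every edge has at least two vertices, two distinct edges have at most one
common vertex -/
structure IsLinear {V : Type} [DecidableEq V] (H : Finset (Finset V)) : Prop where
  two_le : ∀ e ∈ H, 2 ≤ e.card
  inter : ∀ e ∈ H, ∀ f ∈ H, e ≠ f → (e ∩ f).card ≤ 1

/-- `N[v]`, the union of all edges that contain `v` -/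
def closedNbhd {V : Type} [DecidableEq V] (H : Finset (Finset V)) (v : V) : Finset V :=
  (H.filter (fun e => v ∈ e)).biUnion id

/-- for every assignment of lists of at least `k` colours to the edges there is a colouring in which
every edge gets a colour of its list and intersecting edges get different colours -/
def Choosable {V : Type} (H : Finset (Finset V)) (k : ℕ) : Prop :=
  ∀ (C : Type) (L : {e : Finset V // e ∈ H} → Finset C), (∀ e, k ≤ (L e).card) →
    ∃ φ : {e : Finset V // e ∈ H} → C, (∀ e, φ e ∈ L e) ∧
      ∀ e f : {e : Finset V // e ∈ H}, e ≠ f → ¬ Disjoint e.1 f.1 → φ e ≠ φ f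

/-- the list chromatic index -/
noncomputable def listChromaticIndex {V : Type} (H : Finset (Finset V)) : ℕ :=
  sInf {k | Choosable H k}

/-- Every linear hypergraph with `|N[v]| ≤ D + 1` for all vertices `v` has list chromatic index at
most `⌊3D/2⌋`. In particular, every linear hypergraph on `n` vertices has list chromatic index at most
`⌊3(n-1)/2⌋`. -/
theorem result (V : Type) [Fintype V] [DecidableEq V] (H : Finset (Finset V)) (hH : IsLinear H) :
    (∀ D : ℕ, (∀ v, (closedNbhd H v).card ≤ D + 1) →
      Choosable H (3 * D / 2) ∧ listChromaticIndex H ≤ 3 * D / 2) ∧
    Choosable H (3 * (Fintype.card V - 1) / 2) ∧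
      listChromaticIndex H ≤ 3 * (Fintype.card V - 1) / 2 := by
  have key : ∀ D : ℕ, (∀ v, (closedNbhd H v).card ≤ D + 1) →
      Choosable H (3 * D / 2) ∧ listChromaticIndex H ≤ 3 * D / 2 := by
    intro D hD
    have hch : Choosable H (3 * D / 2) := fun C L hL =>
      Pool.Agent.Run7.h320.transfer H (3 * D / 2)
        (fun L' hL' => Pool.Agent.Run7.h320.threeHalves hH.inter hH.two_le hD L' hL') L hL
    exact ⟨hch, Nat.sInf_le hch⟩
  refine ⟨key, key _ ?_⟩
  intro v
  refine (card_le_univ _).trans ?_
  omega

end Pool.Agent.Results.MP_ec05cf_co.ThreeHalves
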